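import Pool.Agent.W420.NS.Stm

/-! Project NS, part CYC: cyclic connectivity. -/

set_option autoImplicit false

namespace Pool.Agent.W753.NS

open Pool.Agent.W420.NS

theorem two_le_sz {V : Type} [Fintype V] (X : V → Bool) (a b : V) (ha : X a = true)
    (hb : X b = true) (hab : a ≠ b) : 2 ≤ sz X := by
  unfold sz
  refine le_min le_rfl ?_
  have h : 1 < Fintype.card {x // X x = true} := by
    rw [Fintype.one_lt_card_iff]
    exact ⟨⟨a, ha⟩, ⟨b, hb⟩, fun h => hab (congrArg Subtype.val h)⟩
  exact h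

theorem no_rev (P : Pole) (hS : SlotOK P) (a b : P.V × Fin 3) (hab : a ≠ b) (h1 : (a, b) ∈ P.E)
    (h2 : (b, a) ∈ P.E) : False := by
  have hne : ((b, a) : (P.V × Fin 3) × (P.V × Fin 3)) ≠ (a, b) := by
    intro h
    exact hab (congrArg Prod.fst h).symm
  have hp1 := List.perm_cons_erase h1
  have h3 : (b, a) ∈ P.E.erase (a, b) := (List.mem_erase_of_ne hne).2 h2
  have hp2 := List.perm_cons_erase h3
  have hp3 : P.E.Perm ((a, b) :: (b, a) :: (P.E.erase (a, b)).erase (b, a)) :=
    hp1.trans (hp2.cons _)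
  have hp4 := hp3.flatMap_right (fun e => [e.1, e.2])
  have hc := hS a
  unfold ends at hc
  rw [List.count_append, hp4.count_eq] at hc
  simp only [List.flatMap_cons, List.count_append, List.count_cons_self] at hc
  have h5 : 1 ≤ List.count a [a, b] := by
    rw [List.count_cons_self]
    omega
  have h6 : 1 ≤ List.count a [b, a] := by
    rw [List.one_le_count_iff]
    simp
  omega

theorem x (h : S_NB) : S_CYC := by
  intro P hD hS hB hc F hF u v p q hp hq
  by_contra hnr
  obtain ⟨hnd, nb, hnb1, hnb2, hnb3, hnb4⟩ := h P hD hS hB hc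
  let X : P.V → Bool := fun y =>
    @decide ((P.graph.deleteEdges F).Reachable u y) (Classical.propDecidable _)
  have hX : ∀ y, X y = true ↔ (P.graph.deleteEdges F).Reachable u y := by
    intro y
    exact @decide_eq_true_iff _ (Classical.propDecidable _)
  have h1 : 2 ≤ sz X := by
    cases p with
    | nil => exact absurd rfl hp.ne_nil
    | cons hadj p' =>
      rename_i w
      refine two_le_sz X u w ((hX u).2 (SimpleGraph.Reachable.refl u)) ((hX w).2 hadj.reachable)
        hadj.ne
  have h2 : 2 ≤ sz (fun y => !X y) := by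
    cases q with
    | nil => exact absurd rfl hq.ne_nil
    | cons hadj q' =>
      rename_i w
      refine two_le_sz (fun y => !X y) v w ?_ ?_ hadj.ne
      · simp only [Bool.not_eq_true']
        rw [← Bool.not_eq_true, hX]
        exact hnr
      · simp only [Bool.not_eq_true']
        rw [← Bool.not_eq_true, hX]
        intro hw
        exact hnr (hw.trans hadj.symm.reachable)
  have h3 := (hB X (by omega) (by omega)).2 h1 h2
  unfold cutN at h3
  set l := P.E.filter fun e => X e.1.1 != X e.2.1 with hl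
  have hlm : ∀ e ∈ l, e ∈ P.E ∧ X e.1.1 ≠ X e.2.1 := by
    intro e he
    rw [hl, List.mem_filter] at he
    exact ⟨he.1, by simpa using he.2⟩
  have hlnd : l.Nodup := hnd.filter _
  have hinj : ∀ e ∈ l, ∀ e' ∈ l, s(e.1.1, e.2.1) = s(e'.1.1, e'.2.1) → e = e' := by
    intro e he e' he' hee
    obtain ⟨he1, he2⟩ := hlm e he
    obtain ⟨he1', he2'⟩ := hlm e' he'
    obtain ⟨a1, a2⟩ := hnb1 e he1
    obtain ⟨b1, b2⟩ := hnb1 e' he1'
    rw [Sym2.eq_iff] at hee
    rcases hee with ⟨h4, h5⟩ | ⟨h4, h5⟩
    · have h6 : e.1.2 = e'.1.2 := by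
        apply hnb4 e.1.1
        have e3 : (e.1.1, e.1.2) = e.1 := rfl
        have e4 : (e.1.1, e'.1.2) = e'.1 := by rw [h4]
        rw [e3, e4, a1, b1]
        exact h5
      have h7 : e.1 = e'.1 := Prod.ext h4 h6
      have h8 : e.2 = e'.2 := by rw [← a1, ← b1, h7]
      exact Prod.ext h7 h8
    · exfalso
      have h6 : e.1.2 = e'.2.2 := by
        apply hnb4 e.1.1
        have e3 : (e.1.1, e.1.2) = e.1 := rfl
        have e4 : (e.1.1, e'.2.2) = e'.2 := by rw [h4]
        rw [e3, e4, a1, b2]
        exact h5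
      have h7 : e.1 = e'.2 := Prod.ext h4 h6
      have h8 : e.2 = e'.1 := by rw [← a1, ← b2, h7]
      refine no_rev P hS e.1 e.2 ?_ he1 ?_
      · intro h9
        apply he2
        rw [h9]
      · rw [h8, h7]
        exact he1'
  have hFm : ∀ e ∈ l, s(e.1.1, e.2.1) ∈ F := by
    intro e he
    obtain ⟨he1, he2⟩ := hlm e he
    by_contra hnF
    apply he2
    have hadj : P.graph.Adj e.1.1 e.2.1 := by
      unfold Pole.graph
      rw [SimpleGraph.fromRel_adj]
      refine ⟨fun h9 => he2 (by rw [h9]), Or.inl ⟨e, he1, rfl, rfl⟩⟩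
    have hadj2 : (P.graph.deleteEdges F).Adj e.1.1 e.2.1 := by
      rw [SimpleGraph.deleteEdges_adj]
      exact ⟨hadj, hnF⟩
    rw [Bool.eq_iff_iff, hX, hX]
    exact ⟨fun h9 => h9.trans hadj2.reachable, fun h9 => h9.trans hadj2.symm.reachable⟩
  have hmapnd : (l.map fun e => s(e.1.1, e.2.1)).Nodup := by
    refine List.Nodup.map_on ?_ hlnd
    intro a ha b hb hab
    exact hinj a ha b hb hab
  have hlen : (l.map fun e => s(e.1.1, e.2.1)).length ≤ F.ncard := by
    rw [← List.toFinset_card_of_nodup hmapnd, ← Set.ncard_coe_finset]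
    refine Set.ncard_le_ncard ?_ (Set.toFinite F)
    intro y hy
    rw [Finset.mem_coe, List.mem_toFinset, List.mem_map] at hy
    obtain ⟨e, he, rfl⟩ := hy
    exact hFm e he
  rw [List.length_map] at hlen
  omega

end Pool.Agent.W753.NS
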